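import Pool.Agent.H20.OC.Tools
import Pool.Agent.H70.OC.Tel

/-!
# Runs of active digits

`x` is a real random variable, `lab` a label, `dg x j` the first `j` digits of `x`. The digit `j` is
active for `ω` if, given the label and the first `j` digits of `x`, the law is not concentrated near
`x ω`. A run of length `R` at `j`: the digits `j, j - 1, .., j - R` are active. If on an event the
digits of a block carry entropy proportional to the length, then this event is not contained in the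
set of the samples with few runs in this block.
-/

set_option autoImplicit false

namespace Pool.OCM.RN20

open Finset Real
open Pool.Agent.H49.Ent Pool.Agent.H32.Dense Pool.STK Pool.KAF

section

variable {Ω β : Type}

/-- The first `j` digits. -/
noncomputable def dg (x : Ω → ℝ) (j : ℕ) (ω : Ω) : ℤ := ⌊(2 : ℝ) ^ j * x ω⌋

lemma floor_div_eq {a b : ℝ} (i : ℕ) (h : ⌊a⌋ = ⌊b⌋) : ⌊a / 2 ^ i⌋ ≤ ⌊b / 2 ^ i⌋ := by
  have h2 : (0 : ℝ) < 2 ^ i := by positivity
  rw [Int.le_floor, le_div_iff₀ h2]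
  have h3 := Int.floor_le (a / 2 ^ i)
  rw [le_div_iff₀ h2] at h3
  have h4 : ⌊a / 2 ^ i⌋ * 2 ^ i ≤ ⌊a⌋ := by
    rw [Int.le_floor]
    push_cast
    exact h3
  rw [h] at h4
  have h5 : ((⌊a / 2 ^ i⌋ * 2 ^ i : ℤ) : ℝ) ≤ ⌊b⌋ := by exact_mod_cast h4
  push_cast at h5
  exact h5.trans (Int.floor_le b)

lemma dg_sub {x : Ω → ℝ} {j : ℕ} (i : ℕ) {ω ω' : Ω} (h : dg x j ω = dg x j ω') :
    dg x (j - i) ω = dg x (j - i) ω' := by
  obtain ⟨e, he⟩ : ∃ e, e = j - (j - i) := ⟨_, rfl⟩
  have key : ∀ ω : Ω, (2 : ℝ) ^ (j - i) * x ω = (2 : ℝ) ^ j * x ω / 2 ^ e := by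
    intro ω
    have h2 : (2 : ℝ) ^ j = 2 ^ (j - i) * 2 ^ e := by
      rw [← pow_add]
      congr 1
      omega
    rw [h2, eq_div_iff (by positivity)]
    ring
  unfold dg at h ⊢
  rw [key ω, key ω']
  exact le_antisymm (floor_div_eq e h) (floor_div_eq e h.symm)

lemma dg_mono {x : Ω → ℝ} {j j' : ℕ} (hj : j' ≤ j) {ω ω' : Ω} (h : dg x j ω = dg x j ω') :
    dg x j' ω = dg x j' ω' := by
  have h1 := dg_sub (j - j') h
  have h2 : j - (j - j') = j' := by omega
  rwa [h2] at h1

lemma floor_sub_le {a b L : ℝ} (hL : |a - b| < L) : |((⌊a⌋ - ⌊b⌋ : ℤ) : ℝ)| ≤ L + 1 := by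
  have f1 := Int.floor_le a
  have f2 := Int.lt_floor_add_one a
  have f3 := Int.floor_le b
  have f4 := Int.lt_floor_add_one b
  have h3 := abs_lt.1 hL
  push_cast
  rw [abs_le]
  constructor <;> linarith

end

section

variable {Ω β : Type} [Fintype Ω]

/-- The digit `j` is active for `ω` (threshold `c`, precision `j + k`). -/
def acf (p : Ω → ℝ) (x : Ω → ℝ) (lab : Ω → β) (c : ℝ) (j k : ℕ) (ω : Ω) : Prop :=
  c ≤ Pr (cond p (fun v => (dg x j v, lab v)) (dg x j ω, lab ω))
    {v | (2 : ℝ) ^ (-((j : ℤ) + k)) ≤ |x v - x ω|}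

/-- Two centres of concentration are near. -/
lemma two_centres {q : Ω → ℝ} (hq : IsLaw q) (x : Ω → ℝ) {a a' r : ℝ}
    (h : Pr q {v | r ≤ |x v - a|} < 1 / 2) (h' : Pr q {v | r ≤ |x v - a'|} < 1 / 2) :
    |a - a'| < 2 * r := by
  classical
  by_contra hc
  rw [not_lt] at hc
  have h1 : Pr q (Set.univ : Set Ω) ≤ Pr q {v | r ≤ |x v - a|} + Pr q {v | r ≤ |x v - a'|} := by
    refine Pool.OC.Pr_or hq.nonneg fun v _ _ => ?_
    simp only [Set.mem_ofPred_eq]
    by_contra h2
    rw [not_or, not_le, not_le] at h2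
    have h3 : |a - a'| ≤ |x v - a| + |x v - a'| := by
      have := abs_sub_le a (x v) a'
      rw [abs_sub_comm a (x v)] at this
      exact this
    linarith
  have h2 : Pr q (Set.univ : Set Ω) = 1 := by
    rw [Pool.KAF.Pr_eq]
    simp only [Set.mem_univ, if_true]
    exact hq.sum_one
  linarith

open Classical in
/-- The first failure. -/
noncomputable def ix (f : ℕ → Ω → Prop) (R : ℕ) (ω : Ω) : ℕ :=
  if h : ∃ i, i ≤ R ∧ ¬ f i ω then Nat.find h else R + 1

omit [Fintype Ω] in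
lemma ix_lt (f : ℕ → Ω → Prop) (R : ℕ) (ω : Ω) : ix f R ω < R + 2 := by
  classical
  unfold ix
  split_ifs with h
  · have := (Nat.find_spec h).1
    omega
  · omega

omit [Fintype Ω] in
lemma ix_run {f : ℕ → Ω → Prop} {R : ℕ} {ω : Ω} (h : ix f R ω = R + 1) : ∀ i ≤ R, f i ω := by
  classical
  intro i hi
  by_contra hf
  have hex : ∃ i, i ≤ R ∧ ¬ f i ω := ⟨i, hi, hf⟩
  unfold ix at h
  rw [dif_pos hex] at h
  have := (Nat.find_spec hex).1
  omega

omit [Fintype Ω] in
lemma ix_fail {f : ℕ → Ω → Prop} {R : ℕ} {ω : Ω} (h : ix f R ω ≠ R + 1) :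
    ix f R ω ≤ R ∧ ¬ f (ix f R ω) ω := by
  classical
  unfold ix at h ⊢
  split_ifs at h ⊢ with hex
  · exact Nat.find_spec hex
  · exact absurd rfl h

/-- One block of `K` digits. -/
theorem blk {p q : Ω → ℝ} (hp : IsLaw p) (hq : IsLaw q) (hqp : ∀ ω, 0 < q ω → 0 < p ω)
    (x : Ω → ℝ) (lab : Ω → β) (j K R : ℕ) {c : ℝ} (hc : c ≤ 1 / 2) :
    CH q (dg x (j + K)) (fun ω => (dg x j ω, lab ω)) ≤ Real.log (R + 2) + Real.log 8 +
      Pr q {ω | ∀ i ≤ R, acf p x lab c (j - i) (K + R) ω} * ((K + 2) * Real.log 2) := by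
  classical
  obtain ⟨I, hI⟩ : ∃ I : Ω → ℕ, I = ix (fun i ω => acf p x lab c (j - i) (K + R) ω) R := ⟨_, rfl⟩
  have h1 := CH_le_add hq.nonneg (dg x (j + K)) I (fun ω => (dg x j ω, lab ω))
  have h2 : CH q I (fun ω => (dg x j ω, lab ω)) ≤ Real.log (R + 2) := by
    refine (CH_le_card hq.nonneg hq.sum_one I _ (fun _ => Finset.range (R + 2)) ?_).trans ?_
    · intro ω _
      rw [Finset.mem_range, hI]
      exact ix_lt _ _ _
    · simp only [Finset.card_range]
      rw [Ex_const hq.sum_one]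
      push_cast
      exact le_rfl
  have h3 := CH_le_int hq.nonneg hq.sum_one (dg x (j + K)) (fun ω => (I ω, (dg x j ω, lab ω)))
    (fun ω => if I ω = R + 1 then (2 : ℝ) ^ K + 1 else 3) (by
      intro ω ω' hω hω' hW
      obtain ⟨e1, e2⟩ := Prod.ext_iff.1 hW
      obtain ⟨e3, e4⟩ := Prod.ext_iff.1 e2
      simp only at e1 e3 e4
      unfold dg
      by_cases hI1 : I ω = R + 1
      · rw [if_pos hI1]
        refine floor_sub_le ?_
        have f1 := Int.floor_le ((2 : ℝ) ^ j * x ω)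
        have f2 := Int.lt_floor_add_one ((2 : ℝ) ^ j * x ω)
        have f3 := Int.floor_le ((2 : ℝ) ^ j * x ω')
        have f4 := Int.lt_floor_add_one ((2 : ℝ) ^ j * x ω')
        unfold dg at e3
        rw [e3] at f1 f2
        have h5 : |(2 : ℝ) ^ j * x ω - 2 ^ j * x ω'| < 1 := by
          rw [abs_lt]
          constructor <;> linarith
        have h6 : (2 : ℝ) ^ (j + K) * x ω - 2 ^ (j + K) * x ω' =
            2 ^ K * ((2 : ℝ) ^ j * x ω - 2 ^ j * x ω') := by
          rw [pow_add]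
          ring
        rw [h6, abs_mul, abs_of_pos (by positivity : (0 : ℝ) < 2 ^ K)]
        calc (2 : ℝ) ^ K * |(2 : ℝ) ^ j * x ω - 2 ^ j * x ω'| < 2 ^ K * 1 :=
              mul_lt_mul_of_pos_left h5 (by positivity)
          _ = 2 ^ K := mul_one _
      · rw [if_neg hI1]
        have hI2 : I ω' ≠ R + 1 := by rw [← e1]; exact hI1
        rw [hI] at hI1 hI2 e1
        obtain ⟨g1, g2⟩ := ix_fail hI1
        obtain ⟨g3, g4⟩ := ix_fail hI2
        rw [← e1] at g4
        obtain ⟨i, hi⟩ : ∃ i, i = ix (fun i ω => acf p x lab c (j - i) (K + R) ω) R ω :=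
          ⟨_, rfl⟩
        rw [← hi] at g1 g2 g4
        unfold acf at g2 g4
        rw [not_le] at g2 g4
        have e5 : (dg x (j - i) ω', lab ω') = (dg x (j - i) ω, lab ω) := by
          rw [e4, dg_sub i e3]
        rw [e5] at g4
        have hlaw : IsLaw (cond p (fun v => (dg x (j - i) v, lab v)) (dg x (j - i) ω, lab ω)) :=
          Pool.OC.isLaw_cnd hp (fun v => (dg x (j - i) v, lab v)) (hqp ω hω)
        have h5 := two_centres hlaw x (g2.trans_le hc) (g4.trans_le hc)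
        have h6 : (2 : ℝ) ^ (-(((j - i : ℕ) : ℤ) + ((K + R : ℕ) : ℤ))) ≤
            (2 : ℝ) ^ (-((j + K : ℕ) : ℤ)) := by
          refine zpow_le_zpow_right₀ (by norm_num) ?_
          push_cast
          omega
        have h7 : |x ω - x ω'| < 2 * (2 : ℝ) ^ (-((j + K : ℕ) : ℤ)) := by
          refine h5.trans_le ?_
          exact mul_le_mul_of_nonneg_left h6 (by norm_num)
        have h8 : |(2 : ℝ) ^ (j + K) * x ω - 2 ^ (j + K) * x ω'| < 2 := by
          have e6 : (2 : ℝ) ^ (j + K) * x ω - 2 ^ (j + K) * x ω' =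
            2 ^ (j + K) * (x ω - x ω') := by ring
          rw [e6, abs_mul, abs_of_pos (by positivity : (0 : ℝ) < 2 ^ (j + K))]
          calc (2 : ℝ) ^ (j + K) * |x ω - x ω'| <
                2 ^ (j + K) * (2 * (2 : ℝ) ^ (-((j + K : ℕ) : ℤ))) :=
                mul_lt_mul_of_pos_left h7 (by positivity)
            _ = 2 := by
              rw [zpow_neg, zpow_natCast]
              field_simp
        refine (floor_sub_le h8).trans ?_
        norm_num)
  have h4 : Ex q (fun ω => Real.log (2 * (if I ω = R + 1 then (2 : ℝ) ^ K + 1 else 3) + 1)) ≤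
      Real.log 8 + Pr q {ω | ∀ i ≤ R, acf p x lab c (j - i) (K + R) ω} *
        ((K + 2) * Real.log 2) := by
    have hl : 0 ≤ ((K : ℝ) + 2) * Real.log 2 := by
      have : 0 < Real.log 2 := Real.log_pos (by norm_num)
      positivity
    have h5 : Ex q (fun ω => Real.log 8 +
        (if ω ∈ {ω | ∀ i ≤ R, acf p x lab c (j - i) (K + R) ω} then (1 : ℝ) else 0) *
          ((K + 2) * Real.log 2)) =
        Real.log 8 + Pr q {ω | ∀ i ≤ R, acf p x lab c (j - i) (K + R) ω} *
        ((K + 2) * Real.log 2) := by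
      rw [Ex_add, Ex_const hq.sum_one, ← Pool.OC.Ex_ind]
      congr 1
      unfold Ex
      rw [Finset.sum_mul]
      exact Finset.sum_congr rfl fun ω _ => by ring
    rw [← h5]
    refine Ex_mono hq.nonneg fun ω _ => ?_
    by_cases hI1 : I ω = R + 1
    · have h6 : ω ∈ {ω | ∀ i ≤ R, acf p x lab c (j - i) (K + R) ω} := by
        rw [hI] at hI1
        exact ix_run hI1
      rw [if_pos hI1, if_pos h6, one_mul]
      have h7 : (2 : ℝ) * (2 ^ K + 1) + 1 ≤ 8 * 2 ^ (K + 2) := by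
        have : (1 : ℝ) ≤ 2 ^ K := one_le_pow₀ (by norm_num)
        rw [pow_add]
        linarith
      have h8 := Real.log_le_log (by positivity) h7
      rw [Real.log_mul (by norm_num) (by positivity), Real.log_pow] at h8
      push_cast at h8
      exact h8
    · rw [if_neg hI1]
      have h7 : Real.log (2 * 3 + 1) ≤ Real.log 8 := Real.log_le_log (by norm_num) (by norm_num)
      have h8 : (0 : ℝ) ≤ (if ω ∈ {ω | ∀ i ≤ R, acf p x lab c (j - i) (K + R) ω} then (1 : ℝ)
          else 0) * ((K + 2) * Real.log 2) := by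
        refine mul_nonneg ?_ hl
        split_ifs <;> norm_num
      linarith
  linarith

/-- The chain rule. -/
theorem chn {q : Ω → ℝ} (hq : ∀ ω, 0 ≤ q ω) (x : Ω → ℝ) (lab : Ω → β) (s K : ℕ) (M : ℕ) :
    CH q (dg x (s + M * K)) (fun ω => (dg x s ω, lab ω)) ≤
      ∑ i ∈ range M, CH q (dg x (s + i * K + K)) (fun ω => (dg x (s + i * K) ω, lab ω)) := by
  induction M with
  | zero =>
    rw [Finset.sum_range_zero, zero_mul, add_zero]
    refine le_of_eq (CH_eq_zero hq ?_)
    intro ω ω' _ _ h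
    exact (Prod.ext_iff.1 h).1
  | succ M ih =>
    rw [Finset.sum_range_succ]
    have h1 := CH_le_add hq (dg x (s + (M + 1) * K)) (dg x (s + M * K))
      (fun ω => (dg x s ω, lab ω))
    have h2 : CH q (dg x (s + (M + 1) * K)) (fun ω => (dg x (s + M * K) ω, (dg x s ω, lab ω))) ≤
        CH q (dg x (s + M * K + K)) (fun ω => (dg x (s + M * K) ω, lab ω)) := by
      have e1 : s + (M + 1) * K = s + M * K + K := by ring
      rw [e1]
      refine CH_mono_cond hq ?_
      intro ω ω' _ _ h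
      simp only [Prod.mk.injEq] at h ⊢
      exact ⟨h.1, h.2.2⟩
    linarith

/-- Some more digits. -/
theorem dig {q : Ω → ℝ} (hq : IsLaw q) (x : Ω → ℝ) (lab : Ω → β) {s s' : ℕ} (h : s ≤ s') :
    CH q (dg x s') (fun ω => (dg x s ω, lab ω)) ≤ ((s' : ℝ) - s) * Real.log 2 := by
  have h1 := Pool.OCT.ch_fl_le hq (s' - s) ((2 : ℝ) ^ s) x (fun ω => (dg x s ω, lab ω)) (by
    intro ω ω' _ _ hh
    exact (Prod.ext_iff.1 hh).1)
  have e1 : Pool.OCT.fl (2 ^ (s' - s) * (2 : ℝ) ^ s) x = dg x s' := by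
    funext ω
    unfold Pool.OCT.fl dg
    rw [← pow_add, Nat.sub_add_cancel h]
  rw [e1, Nat.cast_sub h] at h1
  exact h1

/-- Any interval of digits: a block of `M` steps inside. -/
theorem mid {q : Ω → ℝ} (hq : IsLaw q) (x : Ω → ℝ) (lab : Ω → β) {s h r K M : ℕ}
    (hr : r + M * K ≤ h) :
    CH q (dg x (s + h)) (fun ω => (dg x s ω, lab ω)) ≤
      ((h : ℝ) - M * K) * Real.log 2 +
        ∑ i ∈ range M, CH q (dg x (s + r + i * K + K))
          (fun ω => (dg x (s + r + i * K) ω, lab ω)) := by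
  have h1 := CH_le_add hq.nonneg (dg x (s + h)) (dg x (s + r)) (fun ω => (dg x s ω, lab ω))
  have h2 := dig hq x lab (show s ≤ s + r by omega)
  have h3 : CH q (dg x (s + h)) (fun ω => (dg x (s + r) ω, (dg x s ω, lab ω))) ≤
      CH q (dg x (s + h)) (fun ω => (dg x (s + r) ω, lab ω)) := by
    refine CH_mono_cond hq.nonneg ?_
    intro ω ω' _ _ h
    simp only [Prod.mk.injEq] at h ⊢
    exact ⟨h.1, h.2.2⟩
  have h4 := CH_le_add hq.nonneg (dg x (s + h)) (dg x (s + r + M * K))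
    (fun ω => (dg x (s + r) ω, lab ω))
  have h5 := chn hq.nonneg x lab (s + r) K M
  have h6 : CH q (dg x (s + h)) (fun ω => (dg x (s + r + M * K) ω, (dg x (s + r) ω, lab ω))) ≤
      CH q (dg x (s + h)) (fun ω => (dg x (s + r + M * K) ω, lab ω)) := by
    refine CH_mono_cond hq.nonneg ?_
    intro ω ω' _ _ h
    simp only [Prod.mk.injEq] at h ⊢
    exact ⟨h.1, h.2.2⟩
  have h7 := dig hq x lab (show s + r + M * K ≤ s + h by omega)
  push_cast at h2 h7
  have e1 : ((h : ℝ) - M * K) * Real.log 2 = ((s : ℝ) + r - s) * Real.log 2 +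
      ((s : ℝ) + h - (s + r + M * K)) * Real.log 2 := by ring
  linarith

end

end Pool.OCM.RN20
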