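import Pool.Agent.H20.OCM.Run
import Pool.Agent.H70.OC.Cnt

/-!
# Runs of active digits: the density of the runs in a block
-/

set_option autoImplicit false

namespace Pool.OCM.RN20

open Finset Real
open Pool.Agent.H49.Ent Pool.Agent.H32.Dense Pool.STK Pool.KAF

section

variable {Ω β : Type} [Fintype Ω]

/-- The runs of `ω`. -/
def rns (p : Ω → ℝ) (x : Ω → ℝ) (lab : Ω → β) (c : ℝ) (K R : ℕ) (ω : Ω) : Set ℕ :=
  {j | ∀ i ≤ R, acf p x lab c (j - i) (K + R) ω}

/-- The samples with few runs in the block `[s, s + h)`. -/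
def few (p : Ω → ℝ) (x : Ω → ℝ) (lab : Ω → β) (c : ℝ) (K R s h : ℕ) (a : ℝ) : Set Ω :=
  {ω | (Set.ncard {j | j ∈ rns p x lab c K R ω ∧ s ≤ j ∧ j < s + h} : ℝ) < a * h}

/-- The number of rows is a sum. -/
lemma ncard_sum (J : Set ℕ) (s h : ℕ) [DecidablePred (· ∈ J)] :
    (Set.ncard {j | j ∈ J ∧ s ≤ j ∧ j < s + h} : ℝ) =
      ∑ j ∈ Ico s (s + h), if j ∈ J then (1 : ℝ) else 0 := by
  have h7 : Set.ncard {r | r ∈ J ∧ s ≤ r ∧ r < s + h} =
      ((Finset.Ico s (s + h)).filter fun r => r ∈ J).card := by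
    rw [← Set.ncard_coe_finset]
    congr 1
    ext r
    simp only [Finset.coe_filter, Finset.mem_Ico, Set.mem_ofPred_eq]
    tauto
  rw [h7, Finset.card_filter]
  push_cast
  rfl

/-- The entropy of a block and the mean number of the runs. -/
theorem ent_runs {p q : Ω → ℝ} (hp : IsLaw p) (hq : IsLaw q) (hqp : ∀ ω, 0 < q ω → 0 < p ω)
    (x : Ω → ℝ) (lab : Ω → β) (s h K R : ℕ) {c : ℝ} (hc : c ≤ 1 / 2) (hK : 1 ≤ K) :
    K * CH q (dg x (s + h)) (fun ω => (dg x s ω, lab ω)) ≤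
      2 * K * K * Real.log 2 + h * Real.log (8 * (R + 2)) +
        (K + 2) * Real.log 2 * ∑ j ∈ Ico s (s + h), Pr q {ω | j ∈ rns p x lab c K R ω} := by
  classical
  have hL2 : 0 < Real.log 2 := Real.log_pos (by norm_num)
  have hlR : 0 ≤ Real.log (8 * ((R : ℝ) + 2)) := by
    refine Real.log_nonneg ?_
    have : (0 : ℝ) ≤ R := Nat.cast_nonneg R
    linarith
  have hK0 : (0 : ℝ) < K := by exact_mod_cast hK
  obtain ⟨f, hf⟩ : ∃ f : ℕ → ℝ, f = fun j => Pr q {ω | j ∈ rns p x lab c K R ω} := ⟨_, rfl⟩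
  have hf0 : ∀ j, 0 ≤ f j := by
    intro j
    rw [hf]
    exact law_nonneg hq.nonneg _ _
  have hgoal : ∑ j ∈ Ico s (s + h), Pr q {ω | j ∈ rns p x lab c K R ω} =
      ∑ j ∈ Ico s (s + h), f j := by rw [hf]
  rw [hgoal]
  obtain ⟨E, hE⟩ : ∃ E, E = CH q (dg x (s + h)) (fun ω => (dg x s ω, lab ω)) := ⟨_, rfl⟩
  rw [← hE]
  by_cases hh : h < 2 * K
  · -- short blocks
    have h1 := dig hq x lab (show s ≤ s + h by omega)
    rw [← hE] at h1
    push_cast at h1
    have h2 : (h : ℝ) ≤ 2 * K := by exact_mod_cast hh.le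
    have h3 : E ≤ 2 * K * Real.log 2 := by
      refine h1.trans ?_
      have := mul_le_mul_of_nonneg_right h2 hL2.le
      have e1 : ((s : ℝ) + h - s) * Real.log 2 = h * Real.log 2 := by ring
      rw [e1]
      exact this
    have h4 := mul_le_mul_of_nonneg_left h3 hK0.le
    have h5 : 0 ≤ (h : ℝ) * Real.log (8 * (R + 2)) := mul_nonneg (Nat.cast_nonneg _) hlR
    have h6 : 0 ≤ ((K : ℝ) + 2) * Real.log 2 * ∑ j ∈ Ico s (s + h), f j := by
      refine mul_nonneg (by positivity) (Finset.sum_nonneg fun j _ => hf0 j)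
    have e1 : (K : ℝ) * (2 * K * Real.log 2) = 2 * K * K * Real.log 2 := by ring
    linarith
  rw [not_lt] at hh
  obtain ⟨M, hM⟩ : ∃ M, M = h / K - 1 := ⟨_, rfl⟩
  have hdiv1 : h / K * K ≤ h := Nat.div_mul_le_self _ _
  have hdiv2 : h < h / K * K + K := Nat.lt_div_mul_add (by omega)
  have hdiv3 : 1 ≤ h / K := by
    rw [Nat.le_div_iff_mul_le (by omega)]
    omega
  have hMK : M * K + K = h / K * K := by
    obtain ⟨t, ht⟩ : ∃ t, h / K = t + 1 := ⟨h / K - 1, by omega⟩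
    rw [hM, ht]
    have : t + 1 - 1 = t := by omega
    rw [this]
    ring
  have hres : ∀ r ∈ range K, E ≤ 2 * K * Real.log 2 +
      ∑ i ∈ range M, (Real.log (8 * (R + 2)) + f (s + r + i * K) * ((K + 2) * Real.log 2)) := by
    intro r hr
    rw [mem_range] at hr
    have h1 := mid hq x lab (s := s) (h := h) (r := r) (K := K) (M := M) (by omega)
    rw [← hE] at h1
    have h2 : ((h : ℝ) - M * K) * Real.log 2 ≤ 2 * K * Real.log 2 := by
      refine mul_le_mul_of_nonneg_right ?_ hL2.le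
      have : (h : ℝ) ≤ M * K + K + K := by exact_mod_cast (by omega : h ≤ M * K + K + K)
      linarith
    have h3 : ∑ i ∈ range M, CH q (dg x (s + r + i * K + K))
          (fun ω => (dg x (s + r + i * K) ω, lab ω)) ≤
        ∑ i ∈ range M, (Real.log (8 * (R + 2)) + f (s + r + i * K) * ((K + 2) * Real.log 2)) := by
      refine Finset.sum_le_sum fun i _ => ?_
      have h4 := blk hp hq hqp x lab (s + r + i * K) K R hc
      have e1 : Real.log (8 * ((R : ℝ) + 2)) = Real.log (R + 2) + Real.log 8 := by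
        rw [Real.log_mul (by norm_num) (by positivity)]
        ring
      rw [e1, hf]
      exact h4
    linarith
  have hsum := Finset.sum_le_sum hres
  rw [Finset.sum_const, card_range, nsmul_eq_mul, Finset.sum_add_distrib, Finset.sum_const,
    card_range, nsmul_eq_mul] at hsum
  have e2 : ∑ r ∈ range K, ∑ i ∈ range M,
      (Real.log (8 * (R + 2)) + f (s + r + i * K) * ((K + 2) * Real.log 2)) =
      K * (M * Real.log (8 * (R + 2))) +
        (K + 2) * Real.log 2 * ∑ r ∈ range K, ∑ i ∈ range M, f (s + r + i * K) := by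
    simp only [Finset.sum_add_distrib, Finset.sum_const, card_range, nsmul_eq_mul,
      Finset.mul_sum]
    congr 1
    refine Finset.sum_congr rfl fun r _ => Finset.sum_congr rfl fun i _ => by ring
  rw [e2] at hsum
  have e3 : ∑ r ∈ range K, ∑ i ∈ range M, f (s + r + i * K) =
      ∑ y ∈ range (M * K), f (s + y) := by
    rw [Pool.OC.SP.sum_blocks (fun y => f (s + y))]
    refine Finset.sum_congr rfl fun r _ => Finset.sum_congr rfl fun i _ => ?_
    congr 1
    ring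
  have e4 : ∑ y ∈ range (M * K), f (s + y) ≤ ∑ j ∈ Ico s (s + h), f j := by
    have e5 : ∑ j ∈ Ico s (s + h), f j = ∑ y ∈ range h, f (s + y) := by
      rw [Finset.sum_Ico_eq_sum_range]
      have : s + h - s = h := by omega
      rw [this]
    rw [e5]
    refine Finset.sum_le_sum_of_subset_of_nonneg ?_ fun _ _ _ => hf0 _
    intro y hy
    rw [mem_range] at hy ⊢
    omega
  rw [e3] at hsum
  have h8 := mul_le_mul_of_nonneg_left e4 (show 0 ≤ ((K : ℝ) + 2) * Real.log 2 by positivity)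
  have h9 : (K : ℝ) * (M * Real.log (8 * (R + 2))) ≤ h * Real.log (8 * (R + 2)) := by
    have : (K : ℝ) * M ≤ h := by
      have : (M : ℝ) * K ≤ h := by exact_mod_cast (by omega : M * K ≤ h)
      linarith
    have := mul_le_mul_of_nonneg_right this hlR
    linarith
  have e6 : (K : ℝ) * (2 * K * Real.log 2) = 2 * K * K * Real.log 2 := by ring
  linarith

/-- Mean of a number which is small on an event. -/
lemma mean_few {q : Ω → ℝ} (hq : IsLaw q) (J : Ω → Set ℕ) (s h : ℕ) {a : ℝ}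
    (hJ : ∀ ω, 0 < q ω → (Set.ncard {j | j ∈ J ω ∧ s ≤ j ∧ j < s + h} : ℝ) ≤ a) :
    ∑ j ∈ Ico s (s + h), Pr q {ω | j ∈ J ω} ≤ a := by
  classical
  have h1 : ∑ j ∈ Ico s (s + h), Pr q {ω | j ∈ J ω} =
      Ex q (fun ω => (Set.ncard {j | j ∈ J ω ∧ s ≤ j ∧ j < s + h} : ℝ)) := by
    have h2 : ∀ j, Pr q {ω | j ∈ J ω} = Ex q (fun ω => if j ∈ J ω then (1 : ℝ) else 0) := by
      intro j
      rw [← Pool.OC.Ex_ind]
      rfl
    simp only [h2]
    unfold Ex
    rw [Finset.sum_comm]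
    refine Finset.sum_congr rfl fun ω _ => ?_
    beta_reduce
    rw [ncard_sum, Finset.mul_sum]
  rw [h1]
  refine (Ex_mono hq.nonneg hJ).trans (le_of_eq ?_)
  exact Ex_const hq.sum_one a

/-- **Runs.** If the digits of a block carry entropy `ca` per digit on an event, this event is not
the set of the samples with few runs in the block. -/
theorem runs (ca : ℝ) (hca : 0 < ca) (R : ℕ) : ∃ K h₀ : ℕ, 1 ≤ K ∧
    ∀ (Ω β : Type) [Fintype Ω] (p : Ω → ℝ) (x : Ω → ℝ) (lab : Ω → β) (c : ℝ) (s h : ℕ),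
      IsLaw p → c ≤ 1 / 2 → h₀ ≤ h → 0 < Pr p (few p x lab c K R s h (ca / 2)) →
      CH (cond p (fun ω => ω ∈ few p x lab c K R s h (ca / 2)) True) (dg x (s + h))
        (fun ω => (dg x s ω, lab ω)) < ca * h * Real.log 2 := by
  classical
  have hL2 : 0 < Real.log 2 := Real.log_pos (by norm_num)
  have hlR : 0 ≤ Real.log (8 * ((R : ℝ) + 2)) := by
    refine Real.log_nonneg ?_
    have : (0 : ℝ) ≤ R := Nat.cast_nonneg R
    linarith
  obtain ⟨K, hK1, hK2⟩ : ∃ K : ℕ, 16 ≤ K ∧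
      Real.log (8 * ((R : ℝ) + 2)) ≤ ca / 8 * K * Real.log 2 := by
    obtain ⟨K, hK⟩ := exists_nat_ge (Real.log (8 * ((R : ℝ) + 2)) / (ca / 8 * Real.log 2))
    refine ⟨max 16 K, le_max_left _ _, ?_⟩
    rw [div_le_iff₀ (by positivity)] at hK
    have h1 : (K : ℝ) ≤ ((max 16 K : ℕ) : ℝ) := by exact_mod_cast le_max_right 16 K
    have h2 := mul_le_mul_of_nonneg_right h1 (show 0 ≤ ca / 8 * Real.log 2 by positivity)
    linarith
  obtain ⟨h₀, hh₀⟩ := exists_nat_ge (16 * (K : ℝ) / ca)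
  refine ⟨K, h₀ + 1, by omega, ?_⟩
  intro Ω β _ p x lab c s h hp hc hh hpos
  obtain ⟨E, hE⟩ : ∃ E, E = few p x lab c K R s h (ca / 2) := ⟨_, rfl⟩
  rw [← hE] at hpos ⊢
  have hK0 : (0 : ℝ) < K := by
    have : (16 : ℝ) ≤ K := by exact_mod_cast hK1
    linarith
  have hh1 : 16 * (K : ℝ) ≤ ca * h := by
    rw [div_le_iff₀ hca] at hh₀
    have h1 : (h₀ : ℝ) ≤ h := by exact_mod_cast (by omega : h₀ ≤ h)
    have h2 := mul_le_mul_of_nonneg_right h1 hca.le
    linarith
  have hlaw : IsLaw (cond p (fun ω => ω ∈ E) True) :=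
    ⟨fun v => cond_nonneg hp.nonneg _ _ v, sum_cond p _ (ne_of_gt hpos)⟩
  have hmem : ∀ ω, 0 < cond p (fun ω => ω ∈ E) True ω → 0 < p ω ∧ ω ∈ E := by
    intro ω hω
    have h1 := (cond_pos_iff hp.nonneg (fun ω => ω ∈ E) True ω).1 hω
    exact ⟨h1.1, by simpa using h1.2⟩
  have h1 := ent_runs hp hlaw (fun ω hω => (hmem ω hω).1) x lab s h K R hc (by omega)
  have h2 : ∑ j ∈ Ico s (s + h), Pr (cond p (fun ω => ω ∈ E) True)
      {ω | j ∈ rns p x lab c K R ω} ≤ ca / 2 * h := by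
    refine mean_few hlaw (fun ω => rns p x lab c K R ω) s h fun ω hω => ?_
    have h3 := (hmem ω hω).2
    rw [hE] at h3
    exact (show (Set.ncard {j | j ∈ rns p x lab c K R ω ∧ s ≤ j ∧ j < s + h} : ℝ) < ca / 2 * h
      from h3).le
  have h3 := mul_le_mul_of_nonneg_left h2 (show 0 ≤ ((K : ℝ) + 2) * Real.log 2 by positivity)
  by_contra hcon
  rw [not_lt] at hcon
  have h4 := mul_le_mul_of_nonneg_left hcon hK0.le
  have hh0 : (0 : ℝ) < h := by exact_mod_cast (by omega : 0 < h)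
  have h5 : (h : ℝ) * Real.log (8 * (R + 2)) ≤ h * (ca / 8 * K * Real.log 2) :=
    mul_le_mul_of_nonneg_left hK2 hh0.le
  have h6 : 2 * (K : ℝ) * K * Real.log 2 ≤ K * (ca * h / 8) * Real.log 2 := by
    have h7 : 2 * (K : ℝ) ≤ ca * h / 8 := by linarith
    have h8 := mul_le_mul_of_nonneg_left h7 hK0.le
    have h9 := mul_le_mul_of_nonneg_right h8 hL2.le
    have e1 : 2 * (K : ℝ) * K * Real.log 2 = K * (2 * K) * Real.log 2 := by ring
    rw [e1]
    exact h9
  have h7 : ((K : ℝ) + 2) * Real.log 2 * (ca / 2 * h) ≤ 9 / 16 * K * ca * h * Real.log 2 := by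
    have h8 : (K : ℝ) + 2 ≤ 9 / 8 * K := by
      have : (16 : ℝ) ≤ K := by exact_mod_cast hK1
      linarith
    have h9 := mul_le_mul_of_nonneg_right h8 (show 0 ≤ Real.log 2 * (ca / 2 * h) by positivity)
    have e1 : ((K : ℝ) + 2) * Real.log 2 * (ca / 2 * h) =
      (K + 2) * (Real.log 2 * (ca / 2 * h)) := by ring
    have e2 : 9 / 16 * (K : ℝ) * ca * h * Real.log 2 =
      9 / 8 * K * (Real.log 2 * (ca / 2 * h)) := by ring
    rw [e1, e2]
    exact h9
  have h10 : 0 < K * ca * h * Real.log 2 := by positivity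
  have e3 : (K : ℝ) * (ca * h * Real.log 2) = K * ca * h * Real.log 2 := by ring
  have e4 : (h : ℝ) * (ca / 8 * K * Real.log 2) = 1 / 8 * (K * ca * h * Real.log 2) := by ring
  have e5 : (K : ℝ) * (ca * h / 8) * Real.log 2 = 1 / 8 * (K * ca * h * Real.log 2) := by ring
  have e6 : 9 / 16 * (K : ℝ) * ca * h * Real.log 2 = 9 / 16 * (K * ca * h * Real.log 2) := by ring
  rw [e3] at h4
  rw [e4] at h5
  rw [e5] at h6
  rw [e6] at h7
  linarith

/-- Typical samples have many runs in all the blocks. -/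
theorem runs_all {ca : ℝ} {R K s₀ h N : ℕ} {p : Ω → ℝ} {x : Ω → ℝ} {lab : Ω → β} {c π₀ : ℝ}
    (hp : IsLaw p) (hπ : 0 < π₀)
    (hrun : ∀ s, 0 < Pr p (few p x lab c K R s h (ca / 2)) →
      CH (cond p (fun ω => ω ∈ few p x lab c K R s h (ca / 2)) True) (dg x (s + h))
        (fun ω => (dg x s ω, lab ω)) < ca * h * Real.log 2)
    (hact : ∀ m < N, ∀ E : Set Ω, π₀ ≤ Pr p E → ca * h * Real.log 2 ≤
      CH (cond p (fun ω => ω ∈ E) True) (dg x (s₀ + m * h + h))
        (fun ω => (dg x (s₀ + m * h) ω, lab ω))) :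
    Pr p {ω | ∃ m < N, ω ∈ few p x lab c K R (s₀ + m * h) h (ca / 2)} ≤ N * π₀ := by
  classical
  have h1 : ∀ m < N, Pr p (few p x lab c K R (s₀ + m * h) h (ca / 2)) ≤ π₀ := by
    intro m hm
    by_contra hcon
    rw [not_le] at hcon
    have h2 := hrun (s₀ + m * h) (hπ.trans hcon)
    have h3 := hact m hm _ hcon.le
    linarith
  induction N with
  | zero =>
    have : {ω | ∃ m < 0, ω ∈ few p x lab c K R (s₀ + m * h) h (ca / 2)} = (∅ : Set Ω) := by
      ext ω
      simp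
    rw [this, Pool.KAF.Pr_eq]
    simp
  | succ N ih =>
    have h2 := ih (fun m hm => hact m (by omega)) (fun m hm => h1 m (by omega))
    have h3 : Pr p {ω | ∃ m < N + 1, ω ∈ few p x lab c K R (s₀ + m * h) h (ca / 2)} ≤
        Pr p {ω | ∃ m < N, ω ∈ few p x lab c K R (s₀ + m * h) h (ca / 2)} +
          Pr p (few p x lab c K R (s₀ + N * h) h (ca / 2)) := by
      refine Pool.OC.Pr_or hp.nonneg fun ω _ hω => ?_
      obtain ⟨m, hm, hmem⟩ := hω
      rcases Nat.lt_succ_iff_lt_or_eq.1 hm with h4 | h4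
      · exact Or.inl ⟨m, h4, hmem⟩
      · subst h4
        exact Or.inr hmem
    have h4 := h1 N (by omega)
    push_cast
    linarith

end

end Pool.OCM.RN20
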